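import Mathlib

open Set

namespace Pool.Agent.Results.MP_dba3a1_an.No

section
variable {A B : Type} [Ring A] [Star A] [Ring B] [Star B]

/-- inside the multiplicative set `M`, the right annihilator of `S` is `e M` for the projection
`e ∈ M` -/
def IsRann (M S : Set A) (e : A) : Prop :=
  e ∈ M ∧ IsStarProjection e ∧ ∀ y ∈ M, (∀ x ∈ S, x * y = 0) ↔ ∃ a ∈ M, y = e * a

/-- every right annihilator is generated by a projection -/
def IsAW (A : Type) [Ring A] [Star A] : Prop := ∀ S : Set A, ∃ e, IsRann univ S e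

/-- the multiplicative submonoid generated by the projections -/
def P (A : Type) [Ring A] [Star A] : Set A := Submonoid.closure {p : A | IsStarProjection p}

/-- `φ` restricts to a morphism of Baer star-semigroups `P A → P B` -/
def BaerMor (φ : A → B) : Prop :=
  MapsTo φ (P A) (P B) ∧ (∀ x ∈ P A, ∀ y ∈ P A, φ (x * y) = φ x * φ y) ∧
    (∀ x ∈ P A, φ (star x) = star (φ x)) ∧
    ∀ S ⊆ P A, ∀ e, IsRann (P A) S e → IsRann (P B) (φ '' S) (φ e)

theorem baer (σ : A →+* A) (hσ : ∀ x, σ (σ x) = x) (hs : ∀ x, σ (star x) = star (σ x)) :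
    BaerMor σ := by
  have hp : ∀ p, IsStarProjection p → IsStarProjection (σ p) := fun p h =>
    ⟨by rw [IsIdempotentElem, ← map_mul, h.isIdempotentElem.eq],
      by rw [IsSelfAdjoint, ← hs, h.isSelfAdjoint.star_eq]⟩
  have hm : MapsTo σ (P A) (P A) := by
    intro x hx
    induction hx using Submonoid.closure_induction with
    | mem x hx => exact Submonoid.subset_closure (hp x hx)
    | one => rw [map_one]; exact Submonoid.one_mem _
    | mul x y _ _ h1 h2 => rw [map_mul]; exact Submonoid.mul_mem _ h1 h2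
  refine ⟨hm, fun x _ y _ => map_mul σ x y, fun x _ => hs x, fun S _ e he =>
    ⟨hm he.1, hp e he.2.1, fun y hy => ⟨fun h => ?_, ?_⟩⟩⟩
  · obtain ⟨a, ha, h1⟩ := (he.2.2 (σ y) (hm hy)).1 fun x hx => by
      rw [← hσ x, ← map_mul, h _ ⟨x, hx, rfl⟩, map_zero]
    exact ⟨σ a, hm ha, by rw [← map_mul, ← h1, hσ]⟩
  · rintro ⟨a, ha, rfl⟩ _ ⟨x, hx, rfl⟩
    have := (he.2.2 (e * σ a) (Submonoid.mul_mem _ he.1 (hm ha))).2 ⟨σ a, hm ha, rfl⟩ x hx
    rw [← hσ a, ← map_mul, ← map_mul, this, map_zero]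

end

abbrev M : Type := Matrix (Fin 2) (Fin 2) ℂ

theorem aw : IsAW M := by
  intro S
  let T := Matrix.toEuclideanCLM (n := Fin 2) (𝕜 := ℂ)
  let K : Submodule ℂ (EuclideanSpace ℂ (Fin 2)) := ⨅ x ∈ S, LinearMap.ker (T x).toLinearMap
  refine ⟨T.symm K.starProjection, trivial, isStarProjection_starProjection.map T.symm,
    fun y _ => ⟨fun h => ⟨y, trivial, EquivLike.injective T ?_⟩, ?_⟩⟩
  · rw [map_mul, T.apply_symm_apply]
    ext1 v
    refine (Submodule.starProjection_eq_self_iff.2 ?_).symm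
    simp only [K, Submodule.mem_iInf, LinearMap.mem_ker]
    intro x hx
    change (T x * T y) v = 0
    rw [← map_mul, h x hx, map_zero]
    rfl
  · rintro ⟨a, -, rfl⟩ x hx
    refine EquivLike.injective T ?_
    rw [map_mul, map_mul, T.apply_symm_apply, map_zero]
    ext1 v
    have := K.starProjection_apply_mem (T a v)
    simp only [K, Submodule.mem_iInf, LinearMap.mem_ker] at this
    exact this x hx

noncomputable def σ : M →+* M := (starRingEnd ℂ).mapMatrix

theorem no_lin : ¬ ∃ f : M →ₗ[ℂ] M, ∀ x ∈ P M, f x = σ x := by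
  rintro ⟨f, hf⟩
  let p₁ : M := !![1, 0; 0, 0]
  let p₂ : M := !![1 / 2, 1 / 2; 1 / 2, 1 / 2]
  let p₃ : M := !![1 / 2, -Complex.I / 2; Complex.I / 2, 1 / 2]
  have h1 : p₁ ∈ P M := Submonoid.subset_closure
    ⟨by ext i j; fin_cases i <;> fin_cases j <;> simp [p₁, Matrix.mul_apply, Fin.sum_univ_two],
      by ext i j; fin_cases i <;> fin_cases j <;> simp [p₁, Matrix.star_apply]⟩
  have h2 : p₂ ∈ P M := Submonoid.subset_closure
    ⟨by
      ext i j
      fin_cases i <;> fin_cases j <;> simp [p₂, Matrix.mul_apply, Fin.sum_univ_two] <;> norm_num,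
      by ext i j; fin_cases i <;> fin_cases j <;> simp [p₂, Matrix.star_apply]⟩
  have h3 : p₃ ∈ P M := Submonoid.subset_closure
    ⟨by
      ext i j
      fin_cases i <;> fin_cases j <;>
        simp [p₃, Matrix.mul_apply, Fin.sum_univ_two, Complex.ext_iff] <;> norm_num,
      by ext i j; fin_cases i <;> fin_cases j <;> simp [p₃, Matrix.star_apply]⟩
  have h4 : p₁ * p₃ = (-Complex.I) • (p₁ * p₂) + (1 / 2 + Complex.I / 2 : ℂ) • p₁ := by
    ext i j
    fin_cases i <;> fin_cases j <;>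
      simp [p₁, p₂, p₃, Matrix.mul_apply, Fin.sum_univ_two, Complex.ext_iff] <;> norm_num
  have h5 := congrArg f h4
  rw [map_add, map_smul, map_smul, hf _ (Submonoid.mul_mem _ h1 h3),
    hf _ (Submonoid.mul_mem _ h1 h2), hf _ h1] at h5
  have h6 := congrFun (congrFun h5 0) 1
  simp [σ, p₁, p₂, p₃, map_ofNat, Complex.ext_iff] at h6
  norm_num at h6

theorem result : ∃ (A : Type) (_ : CStarAlgebra A), IsAW A ∧
    ∃ φ : A → A, BaerMor φ ∧ ¬ ∃ f : A →ₗ[ℂ] A, ∀ x ∈ P A, f x = φ x :=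
  ⟨M, Matrix.instCStarAlgebra, aw, σ,
    baer σ (fun x => by ext i j; simp [σ]) (fun x => by ext i j; simp [σ, Matrix.star_apply]),
    no_lin⟩

end Pool.Agent.Results.MP_dba3a1_an.No
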